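import Pool.Agent.H15ST.Final
import Pool.Agent.H15ST.Stm

set_option autoImplicit false

/-!
# MP_79d1ba_al, Q1: `V_-` is a simple `𝕜 SL₂(𝔽̄_q)`-module
-/

namespace Pool.Agent.Results.MP_79d1ba_al.AntisymmetricSimple

open Pool.Agent.H15ST.Stm

/-- `V_-` is stable under `G`, nonzero, and has no `G`-stable subspaces other than `0` and
itself, i.e. it is a simple `𝕜G`-module. -/
theorem result (p : ℕ) [Fact p.Prime] (k : Type*) [Field k] [CharZero k] :
    Stable (Vminus p k) ∧ Vminus p k ≠ ⊥ ∧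
      ∀ N : Submodule k (MM p k), N ≤ Vminus p k → Stable N → N = ⊥ ∨ N = Vminus p k := by
  have hset : {v | ∃ x y : K p, v = rho k x y} =
      Set.range fun xy : K p × K p => rho k xy.1 xy.2 := by
    ext v
    constructor
    · rintro ⟨x, y, rfl⟩
      exact ⟨(x, y), rfl⟩
    · rintro ⟨⟨x, y⟩, rfl⟩
      exact ⟨x, y, rfl⟩
  have hV : Vminus p k = Submodule.span k (Set.range fun xy : K p × K p => rho k xy.1 xy.2) := by
    unfold Vminus
    rw [hset]
  rw [hV]
  exact Pool.Agent.H15ST.simple_old p k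

end Pool.Agent.Results.MP_79d1ba_al.AntisymmetricSimple
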